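import Mathlib

set_option autoImplicit false
set_option maxHeartbeats 400000
set_option linter.unusedSectionVars false
set_option linter.unusedSimpArgs false

namespace Pool.Agent.H.MP_67a05c_an

open MvPolynomial Finset

abbrev R (n : ℕ) := MvPolynomial (Fin n) ℝ

variable {n : ℕ}

noncomputable section

def Eu : Derivation ℝ (R n) (R n) := mkDerivation ℝ X
def r2 : R n := ∑ i, X i * X i
def lap (p : R n) : R n := ∑ i, pderiv i (pderiv i p)
def dv (u : Fin n → R n) : R n := ∑ i, pderiv i (u i)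
def dot (u v : Fin n → R n) : R n := ∑ i, u i * v i
def gr (p : R n) (i : Fin n) : R n := pderiv i p
def fld (a b c : R n) (i : Fin n) : R n := X i * a + pderiv i b + r2 * pderiv i c

lemma dX (i j : Fin n) : pderiv i (X j : R n) = if j = i then 1 else 0 := by
  simp [pderiv_X, Pi.single_apply]

lemma dcomm (i j : Fin n) (p : R n) : pderiv i (pderiv j p) = pderiv j (pderiv i p) := by
  have : ⁅(pderiv i : Derivation ℝ (R n) (R n)), (pderiv j : Derivation ℝ (R n) (R n))⁆ = 0 :=
    derivation_ext fun k => by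
      simp only [Derivation.commutator_apply, dX]; split_ifs <;> simp
  exact sub_eq_zero.1 (by simpa [Derivation.commutator_apply] using DFunLike.congr_fun this p)

lemma Eu_X (i : Fin n) : Eu (X i : R n) = X i := mkDerivation_X _ _ _

lemma Eu_mul (p q : R n) : Eu (p * q) = Eu p * q + p * Eu q := by
  rw [Derivation.leibniz, smul_eq_mul, smul_eq_mul]; ring

lemma Eu_C (c : ℝ) : Eu (C c : R n) = 0 := derivation_C _ _

lemma Eu_eq (p : R n) : Eu p = ∑ k, X k * pderiv k p := by
  induction p using MvPolynomial.induction_on with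
  | C a => simp [Eu_C]
  | add p q a b => simp [a, b, mul_add, sum_add_distrib]
  | mul_X p i a =>
    simp only [Eu_mul, Eu_X, a, pderiv_mul, dX, mul_add, sum_add_distrib, sum_mul, mul_assoc,
      mul_ite, mul_one, mul_zero, sum_ite_eq, mem_univ, if_true]
    rw [mul_comm p]

lemma Eu_d (j : Fin n) (p : R n) : Eu (pderiv j p) = pderiv j (Eu p) - pderiv j p := by
  simp [Eu_eq, pderiv_mul, dX, sum_add_distrib, dcomm j, -Derivation.leibniz, -pderiv_X]

lemma d_r2 (i : Fin n) : pderiv i (r2 : R n) = 2 * X i := by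
  simp [r2, pderiv_mul, dX, sum_add_distrib, two_mul, -Derivation.leibniz, -pderiv_X]

lemma Eu_r2 : Eu (r2 : R n) = 2 * r2 := by
  simp [r2, Eu_mul, Eu_X, sum_add_distrib, two_mul, -Derivation.leibniz]

lemma lap_add (p q : R n) : lap (p + q) = lap p + lap q := by simp [lap, sum_add_distrib]

lemma lap_sub (p q : R n) : lap (p - q) = lap p - lap q := by simp [lap]

lemma lap_sum {ι : Type} (s : Finset ι) (p : ι → R n) : lap (∑ a ∈ s, p a) = ∑ a ∈ s, lap (p a) := by
  simp only [lap, map_sum]; exact sum_comm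

lemma lap_C (c : ℝ) (p : R n) : lap (C c * p) = C c * lap p := by
  simp only [lap, pderiv_C_mul, mul_sum]

lemma lap_d (j : Fin n) (p : R n) : lap (pderiv j p) = pderiv j (lap p) := by
  simp [lap, dcomm _ j]

lemma lap_mul (p q : R n) : lap (p * q) = lap p * q + p * lap q + 2 * dot (gr p) (gr q) := by
  simp only [lap, dot, gr, pderiv_mul, map_add, sum_mul, mul_sum, ← sum_add_distrib]
  exact sum_congr rfl fun i _ => by ring

lemma dXd (p : R n) : dot X (gr p) = Eu p := (Eu_eq p).symm

lemma dot_comm (u v : Fin n → R n) : dot u v = dot v u := sum_congr rfl fun _ _ => mul_comm _ _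

lemma lap_X (i : Fin n) (a : R n) : lap (X i * a) = X i * lap a + 2 * pderiv i a := by
  have : lap (X i : R n) = 0 := sum_eq_zero fun j _ => by rw [dX]; split_ifs <;> simp
  simp [lap_mul, this, dot, gr, dX, -pderiv_X]

lemma lap_r2 (a : R n) : lap (r2 * a) = r2 * lap a + 2 * (n : R n) * a + 4 * Eu a := by
  have : lap (r2 : R n) = 2 * n := by
    simp [lap, d_r2, two_mul]
  simp only [lap_mul, this, dot, gr, d_r2, Eu_eq, mul_assoc, ← mul_sum]
  ring

lemma dv_mul (a : R n) (u : Fin n → R n) : dv (fun i => a * u i) = dot (gr a) u + a * dv u := by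
  simp only [dv, dot, gr, pderiv_mul, sum_add_distrib, mul_sum]

lemma dv_X : dv (X : Fin n → R n) = n := by simp [dv]

lemma d_dot (i : Fin n) (u : Fin n → R n) :
    pderiv i (dot X u) = u i + ∑ j, X j * pderiv i (u j) := by
  simp [dot, pderiv_mul, dX, sum_add_distrib, -Derivation.leibniz, -pderiv_X]

lemma lap_dot (u : Fin n → R n) : lap (dot X u) = dot X (fun i => lap (u i)) + 2 * dv u := by
  simp only [dot, lap_sum, lap_X, dv, sum_add_distrib, mul_sum]

lemma dv_Eu (u : Fin n → R n) : dv (fun i => Eu (u i)) = Eu (dv u) + dv u := by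
  simp [dv, Eu_d]

lemma dot_Eu (u : Fin n → R n) : dot X (fun i => Eu (u i)) = Eu (dot X u) - dot X u := by
  simp [dot, Eu_mul, Eu_X, sum_add_distrib, -Derivation.leibniz]

structure Hm (m : ℝ) (a : R n) : Prop where
  l : lap a = 0
  e : Eu a = C m * a

lemma Hm.add {m : ℝ} {a b : R n} (h : Hm m a) (g : Hm m b) : Hm m (a + b) :=
  ⟨by simp [lap_add, h.l, g.l], by simp [h.e, g.e, mul_add]⟩

lemma Hm.c {m : ℝ} {a : R n} (h : Hm m a) (c : ℝ) : Hm m (C c * a) :=
  ⟨by simp [lap_C, h.l], by rw [Eu_mul, Eu_C, h.e]; ring⟩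

lemma Hm.d {m : ℝ} {a : R n} (h : Hm m a) (i : Fin n) : Hm (m - 1) (pderiv i a) :=
  ⟨by simp [lap_d, h.l], by rw [Eu_d, h.e, pderiv_C_mul, map_sub, map_one]; ring⟩

section
variable {m : ℝ} {a b c : R n} (ha : Hm m a) (hb : Hm m b) (hc : Hm m c)
include ha hb hc

lemma dv_fld : dv (fld a b c) = ((n : R n) + C m) * a + 2 * C m * c := by
  have e1 := dv_mul a X
  have e2 := dv_mul r2 (gr c)
  have e3 : dot (gr r2) (gr c) = 2 * Eu c := by simp [dot, gr, d_r2, Eu_eq, mul_sum, mul_assoc]
  rw [dot_comm, dXd, dv_X, ha.e] at e1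
  rw [e3, hc.e, show dv (gr c) = 0 from hc.l] at e2
  have e4 : dv (gr b) = 0 := hb.l
  simp only [dv, fld, gr, map_add, sum_add_distrib, mul_comm (X _) a] at *
  rw [e1, e2, e4]; ring

lemma lap_fld (i : Fin n) :
    lap (fld a b c i) = 2 * pderiv i a + (2 * (n : R n) + 4 * C m - 4) * pderiv i c := by
  simp only [fld, lap_add, lap_X, lap_r2, ha.l, (hb.d i).l, (hc.d i).l, (hc.d i).e, map_sub, map_one]
  ring

lemma Eu_fld (i : Fin n) : Eu (fld a b c i) =
    (C m + 1) * (X i * a) + (C m - 1) * pderiv i b + (C m + 1) * (r2 * pderiv i c) := by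
  simp only [fld, map_add, Eu_mul, Eu_X, Eu_r2, ha.e, (hb.d i).e, (hc.d i).e, map_sub, map_one]
  ring

omit ha in
lemma dot_fld : dot X (fld a b c) = r2 * a + C m * b + r2 * (C m * c) := by
  rw [← hb.e, ← hc.e]
  simp only [dot, fld, Eu_eq, mul_add, sum_add_distrib, mul_sum, mul_left_comm _ r2]
  simp only [r2, sum_mul, mul_assoc]

end

lemma comp_d (i : Fin n) (m : ℕ) (p : R n) :
    pderiv i (homogeneousComponent (m + 1) p) = homogeneousComponent m (pderiv i p) := by
  ext s
  simp [coeff_pderiv, coeff_homogeneousComponent]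

lemma comp_0 (i : Fin n) (p : R n) : pderiv i (homogeneousComponent 0 p) = 0 := by simp

lemma comp_Eu (m : ℕ) (p : R n) : Eu (homogeneousComponent m p) = C (m : ℝ) * homogeneousComponent m p := by
  rw [Eu_eq, (homogeneousComponent_isHomogeneous m p).sum_X_mul_pderiv]; simp

lemma comp_Hm {p : R n} (h : lap p = 0) (m : ℕ) : Hm m (homogeneousComponent m p) := by
  refine ⟨?_, comp_Eu m p⟩
  rcases m with _ | _ | m
  · simp [lap]
  · simp only [lap, comp_d, comp_0, sum_const_zero]
  · simp only [lap, comp_d, ← map_sum]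
    rw [show ∑ i, pderiv i (pderiv i p) = 0 from h, map_zero]

lemma comp_1 (p : R n) : homogeneousComponent 1 p = ∑ j, X j * C (coeff 0 (pderiv j p)) := by
  have := comp_Eu 1 p
  rw [Eu_eq] at this
  simpa only [comp_d _ 0, homogeneousComponent_zero, Nat.cast_one, C_1, one_mul] using this.symm

lemma comp_sum (p : R n) {N : ℕ} (h : p.totalDegree < N) :
    ∑ m ∈ range N, homogeneousComponent m p = p := by
  conv_rhs => rw [← sum_homogeneousComponent p]
  exact (sum_subset (by simpa) fun m _ hm => homogeneousComponent_eq_zero _ _ (by simp at hm; omega)).symm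

lemma deg_d (i : Fin n) (p : R n) {d : ℕ} (h : p.totalDegree ≤ d + 1) :
    (pderiv i p).totalDegree ≤ d := by
  rw [← comp_sum p (N := d + 1 + 1) (by omega), sum_range_succ', map_add, comp_0, add_zero, map_sum]
  refine totalDegree_finsetSum_le fun m hm => ?_
  rw [comp_d]
  exact (homogeneousComponent_isHomogeneous _ _).totalDegree_le.trans (by simp at hm; omega)

end

end Pool.Agent.H.MP_67a05c_an
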