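import Pool.Agent.H.MP_67a05c_an.A

set_option autoImplicit false
set_option maxHeartbeats 400000
set_option linter.unusedSectionVars false
set_option linter.unusedSimpArgs false

namespace Pool.Agent.H.MP_67a05c_an

open MvPolynomial Finset

variable {n : ℕ}

noncomputable section

structure Fn (I : R n →ₗ[ℝ] ℝ) : Prop where
  ibp : ∀ i q, I (pderiv i ((1 - r2) * q)) = 0
  pos : ∀ p, 0 ≤ I (p * p)
  pd : ∀ p, I (p * p) = 0 → p = 0

def S (I : R n →ₗ[ℝ] ℝ) : R n →ₗ[ℝ] ℝ := (n : ℝ) • I + I ∘ₗ Eu.toLinearMap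

lemma lC (L : R n →ₗ[ℝ] ℝ) (c : ℝ) (p : R n) : L (C c * p) = c * L p := by
  rw [← smul_eq_C_mul, map_smul, smul_eq_mul]

lemma lN (L : R n →ₗ[ℝ] ℝ) (c : ℕ) (p : R n) : L (c * p) = c * L p := by
  rw [← lC, map_natCast]

lemma l2 (L : R n →ₗ[ℝ] ℝ) (p : R n) : L (2 * p) = 2 * L p := by rw [two_mul, map_add, two_mul]

def sig (K : ℝ) (u : Fin n → R n) (i j : Fin n) : R n :=
  C (K - 2) * pderiv j (u i) + C K * pderiv i (u j)
def LL (K : ℝ) (u : Fin n → R n) (i : Fin n) : R n := dv (sig K u i)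
def tau (K : ℝ) (u : Fin n → R n) (i : Fin n) : R n := dot X (sig K u i)
def BB (I : R n →ₗ[ℝ] ℝ) (K : ℝ) (u v : Fin n → R n) : ℝ := ∑ i, I (dot (gr (v i)) (sig K u i))
def rot (i j k : Fin n) : R n := (if k = i then X j else 0) - if k = j then X i else 0

lemma LL_eq (K : ℝ) (u : Fin n → R n) (i : Fin n) :
    LL K u i = C (K - 2) * lap (u i) + C K * pderiv i (dv u) := by
  simp only [LL, dv, sig, lap, map_add, pderiv_C_mul, sum_add_distrib, mul_sum, map_sum, dcomm i]

lemma tau_eq (K : ℝ) (u : Fin n → R n) (i : Fin n) :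
    tau K u i = C (K - 2) * Eu (u i) + C K * (pderiv i (dot X u) - u i) := by
  rw [d_dot, add_sub_cancel_left]
  simp only [tau, dot, sig, Eu_eq, mul_add, sum_add_distrib, mul_sum, mul_left_comm _ (C _)]

lemma dot_rot (i j : Fin n) (u : Fin n → R n) : dot u (rot i j) = X j * u i - X i * u j := by
  simp [dot, rot, mul_sub, mul_comm]

lemma dv_rot (i j : Fin n) : dv (rot i j) = 0 := by
  simp [dv, rot, apply_ite (pderiv _), dX, eq_comm, -pderiv_X]

lemma BB_symm (I : R n →ₗ[ℝ] ℝ) (K : ℝ) (u v : Fin n → R n) : BB I K u v = BB I K v u := by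
  simp only [BB, dot, gr, sig, mul_add, sum_add_distrib, map_add, map_sum]
  congr 1
  · exact sum_congr rfl fun i _ => sum_congr rfl fun j _ => congrArg I (by ring)
  · rw [sum_comm]
    exact sum_congr rfl fun i _ => sum_congr rfl fun j _ => congrArg I (by ring)

lemma BB_add (I : R n →ₗ[ℝ] ℝ) (K : ℝ) (u v w : Fin n → R n) :
    BB I K u (v + w) = BB I K u v + BB I K u w := by
  simp only [BB, dot, gr, Pi.add_apply, add_mul, sum_add_distrib, map_add]

variable {I : R n →ₗ[ℝ] ℝ} (hI : Fn I)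

lemma S_def (p : R n) : S I p = n * I p + I (Eu p) := rfl

lemma S_dv (p : R n) : S I p = I (dv fun i => p * X i) := by
  rw [dv_mul, dot_comm, dXd, dv_X, map_add, mul_comm p, lN, S_def, add_comm]

lemma S_hom {p : R n} {e : ℝ} (h : Eu p = C e * p) : S I p = (n + e) * I p := by
  rw [S_def, h, lC]; ring

include hI

lemma Iw (u : Fin n → R n) : I (dv fun i => (1 - r2) * u i) = 0 := by
  simp only [dv, map_sum, hI.ibp, sum_const_zero]

lemma Sw (p : R n) : S I ((1 - r2) * p) = 0 := by
  simp only [S_dv, mul_assoc, Iw hI]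

lemma Sr (p : R n) : S I (r2 * p) = S I p := by
  have := Sw hI p
  rw [sub_mul, one_mul, map_sub] at this
  linarith

lemma Sd (j : Fin n) (F : R n) : S I (X j * F) = I (pderiv j F) := by
  have a := Sw hI (pderiv j F)
  have b := hI.ibp j ((n + 1) * F + Eu F)
  have c : pderiv j ((1 - r2) * (((n : R n) + 1) * F + Eu F)) = ((n : R n) * ((1 - r2) * pderiv j F) +
      Eu ((1 - r2) * pderiv j F)) + 2 * pderiv j F - 2 * ((n : R n) * (X j * F) + Eu (X j * F)) := by
    simp only [pderiv_mul, Eu_mul, map_add, map_sub, Eu_d, Eu_r2, d_r2, Eu_X, Derivation.map_one_eq_zero,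
      Derivation.map_natCast]
    ring
  rw [c, map_sub, map_add, l2, l2, map_add, map_add, lN, lN, ← S_def, ← S_def] at b
  linarith

lemma Sdv (u : Fin n → R n) : S I (dot X u) = I (dv u) := by simp only [dot, dv, map_sum, Sd hI]

lemma Srot (i j : Fin n) (u : Fin n → R n) :
    S I (dot u (rot i j)) = I (pderiv j (u i) - pderiv i (u j)) := by
  rw [dot_rot, map_sub, map_sub, Sd hI, Sd hI]

lemma green (K : ℝ) (u v : Fin n → R n) :
    BB I K u v = S I (dot v (tau K u)) - I (dot v (LL K u)) := by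
  simp only [BB, dot, map_sum, ← sum_sub_distrib]
  refine sum_congr rfl fun i _ => ?_
  have := Sdv hI fun j => v i * sig K u i j
  rw [dv_mul, map_add] at this
  simp only [dot, map_sum, mul_left_comm _ (v i), ← mul_sum] at this
  simp only [tau, LL, dot, ← mul_sum]
  linarith

lemma Ivg (b : R n) {v : Fin n → R n} (h1 : dv v = 0) (h2 : dot X v = 0) : I (dot (gr b) v) = 0 := by
  have := Sdv hI fun j => b * v j
  rw [dv_mul, h1, mul_zero, add_zero] at this
  rw [← this]
  simp only [dot, mul_left_comm _ b, ← mul_sum] at h2 ⊢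
  rw [h2, mul_zero, map_zero]

lemma Sf (a b c : R n) (v : Fin n → R n) :
    S I (dot (fld a b c) v) = S I (a * dot X v) + S I (dot (gr (b + c)) v) := by
  rw [← map_add, ← sub_zero (S I (_ + _)), ← Sw hI (dot (gr c) v), ← map_sub]
  simp only [dot, gr, fld, mul_sum, ← sum_add_distrib, ← sum_sub_distrib, map_add]
  exact congrArg _ (sum_congr rfl fun i _ => by ring)

section
variable {m k : ℝ} {a b c a' b' c' : R n}

lemma S_pos (ha : Hm m a) (hm : 0 ≤ m) : 0 ≤ S I (a * a) := by
  rw [S_hom (e := m + m) (by rw [Eu_mul, ha.e, map_add]; ring)]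
  exact mul_nonneg (by positivity) (hI.pos a)

lemma Ig (hb : Hm k b) : I (dot (gr a) (gr b)) = k * S I (a * b) := by
  have := Sdv hI fun j => a * gr b j
  rw [dv_mul, show dv (gr b) = 0 from hb.l, mul_zero, add_zero] at this
  rw [← this, ← lC, mul_left_comm, ← hb.e, Eu_eq]
  simp only [dot, gr, mul_sum, mul_left_comm a]

lemma So (ha : Hm m a) (hb : Hm k b) (h : m ≠ k) : S I (a * b) = 0 := by
  have e := Ig hI (a := a) hb
  rw [dot_comm, Ig hI ha, mul_comm b] at e
  exact (mul_eq_mul_right_iff.1 e).resolve_left h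

lemma Sg (ha : Hm m a) (hb : Hm k b) :
    S I (dot (gr a) (gr b)) = (n + (m + k - 2)) * (k * S I (a * b)) := by
  rw [← Ig hI hb]
  refine S_hom ?_
  simp only [dot, gr, map_sum, Eu_mul, (ha.d _).e, (hb.d _).e, mul_sum, map_sub, map_add, map_one,
    map_ofNat]
  exact sum_congr rfl fun i _ => by ring

lemma Sfv (hb : Hm m b) (hc : Hm m c) {v : Fin n → R n} (h1 : dv v = 0) (h2 : dot X v = 0) :
    S I (dot (fld a b c) v) = 0 := by
  have : Eu (dot (gr (b + c)) v) =
      C (m - 1) * dot (gr (b + c)) v + dot (gr (b + c)) fun i => Eu (v i) := by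
    simp only [dot, gr, map_sum, Eu_mul, ((hb.add hc).d _).e, mul_sum, sum_add_distrib, mul_assoc]
  rw [Sf hI, h2, S_def (dot _ _), this, map_add, lC, Ivg hI _ h1 h2,
    Ivg hI _ (by rw [dv_Eu, h1]; simp) (by rw [dot_Eu, h2]; simp)]
  simp

lemma Sff (hb : Hm m b) (hc : Hm m c) (hb' : Hm k b') (hc' : Hm k c') :
    S I (dot (fld a b c) (fld a' b' c')) = S I (a * a') + k * S I (a * (b' + c')) +
      m * S I (a' * (b + c)) + (n + (k + m - 2)) * (m * S I ((b' + c') * (b + c))) := by
  rw [Sf hI, dot_comm (gr _), Sf hI, dot_fld hb' hc', dXd, (hb.add hc).e, Sg hI (hb'.add hc') (hb.add hc)]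
  simp only [mul_add a, map_add (S I), mul_left_comm a r2, Sr hI, mul_left_comm _ (C _), lC]
  ring

end

lemma Sh {K : ℝ} (hK : 4 ≤ K) {a : R n} (h : lap a = 0) (h0 : coeff 0 a = 0) :
    0 ≤ S I (a * (C (K - 2) * Eu a - C K * a)) + 2 * S I (homogeneousComponent 1 a * a) := by
  have e := comp_sum a (N := a.totalDegree + 2) (by omega)
  have o : ∀ d ∈ range (a.totalDegree + 2), S I (homogeneousComponent d a * a) =
      S I (homogeneousComponent d a * homogeneousComponent d a) := fun d hd => by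
    conv_lhs => rw [← congrArg (homogeneousComponent d a * ·) e, mul_sum, map_sum]
    exact sum_eq_single_of_mem d hd fun b _ hb =>
      So hI (comp_Hm h d) (comp_Hm h b) (by exact_mod_cast hb.symm)
  have f : a * (C (K - 2) * Eu a - C K * a) = ∑ d ∈ range (a.totalDegree + 2),
      C ((K - 2) * d - K) * (homogeneousComponent d a * a) := by
    conv_lhs => rw [← congrArg (fun b => a * (C (K - 2) * Eu b - C K * b)) e]
    simp only [map_sum, comp_Eu, mul_sum, ← sum_sub_distrib, map_sub, map_mul]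
    exact sum_congr rfl fun i _ => by ring
  rw [f, map_sum, sum_range_succ', sum_range_succ', homogeneousComponent_zero, h0, lC, lC]
  have := sum_nonneg (s := range a.totalDegree) (f := fun d => S I (C ((K - 2) * (d + 1 + 1 : ℕ) - K) *
      (homogeneousComponent (d + 1 + 1) a * a))) fun d hd => by
    rw [lC, o _ (by simp at hd ⊢; omega)]
    refine mul_nonneg ?_ (S_pos hI (comp_Hm h _) (by positivity))
    push_cast
    nlinarith [mul_nonneg (d.cast_nonneg (α := ℝ)) (by linarith : 0 ≤ K - 2)]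
  simp only [zero_add, Nat.cast_one, C_0, zero_mul, map_zero]
  linarith

lemma Sv {K : ℝ} (hK : 4 ≤ K) {v : Fin n → R n} (h0 : ∀ i, lap (v i) = 0) (h2 : dot X v = 0)
    (h3 : ∀ i j, I (pderiv j (v i) - pderiv i (v j)) = 0) : 0 ≤ S I (dot v (tau K v)) := by
  have c0 : ∀ (i) (p : R n), coeff 0 (X i * p) = 0 := fun i p => by
    rw [← constantCoeff_eq, map_mul, constantCoeff_X, zero_mul]
  have a : ∀ i, v i + ∑ j, X j * pderiv i (v j) = 0 := fun i => by rw [← d_dot, h2, map_zero]
  have b : ∀ i j, coeff 0 (pderiv j (v i)) + coeff 0 (pderiv i (v j)) = 0 := fun i j => by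
    have := congrArg (fun p => coeff 0 (pderiv j p)) (a i)
    simpa [pderiv_mul, dX, sum_add_distrib, coeff_sum, c0, -Derivation.leibniz, -pderiv_X] using this
  have c : ∑ i, S I (homogeneousComponent 1 (v i) * v i) = 0 := by
    simp only [comp_1, sum_mul, map_sum, mul_assoc, Sd hI, pderiv_C_mul, lC]
    have : ∑ i, ∑ j, coeff 0 (pderiv j (v i)) * I (pderiv j (v i)) =
      ∑ i, ∑ j, -(coeff 0 (pderiv j (v i)) * I (pderiv j (v i))) := by
      rw [sum_comm]
      refine sum_congr rfl fun i _ => sum_congr rfl fun j _ => ?_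
      have := h3 i j
      rw [map_sub, sub_eq_zero] at this
      rw [this, eq_neg_of_add_eq_zero_right (b i j), neg_mul]
    simp only [sum_neg_distrib] at this
    linarith
  have := sum_nonneg (s := univ) fun i _ => Sh hI hK (h0 i) (by
    simpa [coeff_sum, c0] using congrArg (coeff 0) (a i))
  rw [sum_add_distrib, ← mul_sum, c] at this
  simpa [dot, tau_eq, show ∑ i, X i * v i = 0 from h2, sub_eq_add_neg] using this

lemma B0 (K : ℝ) (q : Fin n → R n) : BB I K (fun i => (1 - r2) * q i) (fun i => (1 - r2) * q i) =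
    (K - 2) * ∑ i, ∑ j, I (pderiv j ((1 - r2) * q i) * pderiv j ((1 - r2) * q i)) +
      K * I (dv (fun i => (1 - r2) * q i) * dv fun i => (1 - r2) * q i) := by
  set u : Fin n → R n := fun i => (1 - r2) * q i with hu
  have a : ∀ i, I (dot (gr (u i)) fun j => pderiv i (u j)) + I (pderiv i (dv u) * u i) = 0 :=
    fun i => by
      have := Iw hI fun j => q i * pderiv i (u j)
      simp only [← mul_assoc] at this
      rw [dv_mul (u i), map_add, mul_comm] at this
      simpa only [dv, map_sum, dcomm i] using this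
  have b := Iw hI fun j => dv u * q j
  simp only [mul_left_comm _ (dv u)] at b
  rw [dv_mul (dv u) u, map_add, dot, map_sum] at b
  have c := sum_eq_zero (s := univ) fun i _ => a i
  simp only [BB, dot, gr, sig, mul_add, sum_add_distrib, map_add, map_sum, mul_left_comm _ (C _), lC,
    ← mul_sum] at b c ⊢
  simp only [hu] at *
  congr 2
  linarith

end

end Pool.Agent.H.MP_67a05c_an
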