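import Pool.Agent.H.MP_67a05c_an.B

set_option autoImplicit false
set_option maxHeartbeats 400000
set_option linter.unusedSectionVars false
set_option linter.unusedSimpArgs false

namespace Pool.Agent.H.MP_67a05c_an

open MvPolynomial Finset

variable {n : ℕ} {I : R n →ₗ[ℝ] ℝ} (hI : Fn I) {K : ℝ}

noncomputable section

def al (n K m : ℝ) : ℝ := -((K - 2) * (2 * n + 4 * m - 4) + 2 * m * K)
def be (n K m : ℝ) : ℝ := 2 * (K - 2) + K * (n + m)
def de (n K m : ℝ) : ℝ := (n + m) * al n K m + 2 * m * be n K m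
def UU (K m : ℝ) (h g : R n) : Fin n → R n := fld (C (al n K m) * h) g (C (be n K m) * h)

lemma de_ne (hn : 3 ≤ n) (hK : 4 ≤ K) {m : ℝ} (hm : 0 ≤ m) : de n K m ≠ 0 := by
  have : (3 : ℝ) ≤ n := by exact_mod_cast hn
  have e : de n K m = -(2 * (K - 2) * ((n + m) * (n + 2 * m - 2) - 2 * m)) := by
    simp only [de, al, be]; ring
  have : 0 < (n + m) * (n + 2 * m - 2) - 2 * m := by nlinarith
  have : 0 < K - 2 := by linarith
  rw [e, neg_ne_zero]; positivity

lemma LL_sub (u v : Fin n → R n) (i : Fin n) : LL K (u - v) i = LL K u i - LL K v i := by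
  simp only [LL, dv, sig, Pi.sub_apply, map_sub, map_add, ← sum_sub_distrib, pderiv_C_mul, mul_sub]
  exact sum_congr rfl fun _ _ => by ring

lemma LL_sum (s : Finset ℕ) (u : ℕ → Fin n → R n) (i : Fin n) :
    LL K (∑ a ∈ s, u a) i = ∑ a ∈ s, LL K (u a) i := by
  simp only [LL_eq, dv, Finset.sum_apply, lap_sum, map_sum, mul_sum, sum_add_distrib]
  rw [sum_comm]

lemma tau_sum (s : Finset ℕ) (u : ℕ → Fin n → R n) (v : Fin n → R n) :
    tau K (∑ a ∈ s, u a + v) = ∑ a ∈ s, tau K (u a) + tau K v := by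
  funext i
  simp only [tau, dot, sig, Pi.add_apply, Finset.sum_apply, map_add, map_sum, mul_add, mul_sum,
    sum_add_distrib, sum_comm (s := s)]
  ring

lemma dot_sum (s : Finset ℕ) (u : ℕ → Fin n → R n) (v w : Fin n → R n) :
    dot (∑ a ∈ s, u a + v) w = ∑ a ∈ s, dot (u a) w + dot v w := by
  simp only [dot, Pi.add_apply, Finset.sum_apply, add_mul, sum_mul, sum_add_distrib, sum_comm (s := s)]

lemma degL {u : Fin n → R n} {d : ℕ} (h : ∀ i, (u i).totalDegree ≤ d + 1 + 1) (i : Fin n) :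
    (LL K u i).totalDegree ≤ d := by
  have c : ∀ (c : ℝ) (j k : Fin n), (C c * pderiv j (u k)).totalDegree ≤ d + 1 := fun c j k =>
    (totalDegree_mul _ _).trans (by rw [totalDegree_C, zero_add]; exact deg_d _ _ (h k))
  exact totalDegree_finsetSum_le fun j _ => deg_d _ _ ((totalDegree_add _ _).trans
    (max_le (c _ _ _) (c _ _ _)))

section
variable {m : ℝ} {h g : R n} (hh : Hm m h) (hg : Hm m g)
include hh hg

lemma dv_U : dv (UU K m h g) = C (de n K m) * h := by
  rw [UU, dv_fld (hh.c _) hg (hh.c _)]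
  simp only [de, map_add, map_mul, map_natCast, map_ofNat]
  ring

lemma LL_U (i : Fin n) : LL K (UU K m h g) i = 0 := by
  rw [LL_eq, dv_U hh hg, UU, lap_fld (hh.c _) hg (hh.c _)]
  simp only [pderiv_C_mul]
  simp only [de, al, be, map_add, map_mul, map_sub, map_neg, map_natCast, map_ofNat]
  ring

lemma tau_U : tau K (UU K m h g) =
    fld (C ((K - 2) * (m + 1) * al n K m + K * (al n K m + 2 * m * be n K m)) * h)
      (C ((2 * K - 2) * (m - 1)) * g)
      (C ((K - 2) * (m + 1) * be n K m + K * (al n K m + (m - 1) * be n K m)) * h) := by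
  funext i
  rw [tau_eq, UU, Eu_fld (hh.c _) hg (hh.c _), dot_fld hg (hh.c _)]
  simp only [fld, map_add (pderiv i), pderiv_C_mul, pderiv_mul (f := r2), d_r2]
  simp only [map_add, map_mul, map_sub, map_ofNat, map_one]
  ring

include hI

lemma diag (p l : ℝ) (hl : l = m * (n + 2 * m - 2)) (hp : p = m * al n K m + l * be n K m) :
    (l * S I (dot (UU K m h g) (tau K (UU K m h g))) = 4 * (K - 1) * (K * (m ^ 2 + m + n - 2) -
      2 * (m + 1) * (n + 2 * m - 2)) * (-al n K m * (l - m ^ 2)) * S I (h * h) +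
      (2 * K - 2) * (m - 1) * S I ((C l * g + C p * h) * (C l * g + C p * h))) ∧
    (m = 0 → S I (dot (UU K m h g) (tau K (UU K m h g))) =
      4 * (K - 1) * ((K - 2) * (n - 2)) ^ 2 * 2 * S I (h * h)) := by
  rw [tau_U hh hg, UU, Sff hI hg (hh.c _) (hg.c _) (hh.c _)]
  simp only [mul_add, add_mul, map_add (S I), mul_assoc (C _), mul_left_comm h (C _),
    mul_left_comm g (C _), lC, mul_comm g h]
  subst hp hl
  refine ⟨?_, ?_⟩
  · simp only [al, be]; ring
  · rintro rfl; simp only [al, be]; ring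

end

include hI

lemma injL (hK : 4 ≤ K) {q : Fin n → R n} (b : ∀ i, LL K (fun j => (1 - r2) * q j) i = 0) (i : Fin n) :
    q i = 0 := by
  have a := green hI K (fun j => (1 - r2) * q j) fun j => (1 - r2) * q j
  rw [B0 hI] at a
  simp only [dot, b, mul_assoc, ← mul_sum, Sw hI, mul_zero, sum_const_zero, map_zero] at a
  have c := fun i => sum_nonneg (s := univ) fun j _ => hI.pos (pderiv j ((1 - r2) * q i))
  have e := mul_nonneg (by linarith : 0 ≤ K) (hI.pos (dv fun i => (1 - r2) * q i))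
  have f := (sum_nonneg fun i _ => c i).antisymm' (nonpos_of_mul_nonpos_right
    (by linarith : (K - 2) * _ ≤ 0) (by linarith))
  have g := fun j => hI.pd _ ((sum_eq_zero_iff_of_nonneg fun j _ => hI.pos _).1
    ((sum_eq_zero_iff_of_nonneg fun i _ => c i).1 f i (mem_univ _)) j (mem_univ _))
  have h := Sw hI (q i * ((1 - r2) * q i))
  rw [← mul_assoc, S_def, Eu_mul, Eu_eq] at h
  simp only [g, mul_zero, sum_const_zero, zero_mul, add_zero, map_zero, mul_eq_zero,
    Nat.cast_eq_zero, i.pos.ne', false_or] at h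
  refine (mul_eq_zero.1 (hI.pd _ h)).resolve_left fun z => ?_
  simpa [r2] using congrArg constantCoeff z

omit hI in
def TL (K : ℝ) : (Fin n → R n) →ₗ[ℝ] Fin n → R n where
  toFun q := LL K fun j => (1 - r2) * q j
  map_add' p q := funext fun i => by
    simp only [LL_eq, dv, Pi.add_apply, mul_add, lap_add, map_add, sum_add_distrib]
    ring
  map_smul' c q := funext fun i => by
    simp only [LL_eq, dv, Pi.smul_apply, smul_eq_C_mul, RingHom.id_apply,
      mul_left_comm (1 - r2) (C c), lap_C, pderiv_C_mul, ← mul_sum]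
    ring

lemma exL (hK : 4 ≤ K) (u : Fin n → R n) : ∃ q : Fin n → R n,
    ∀ i, LL K (fun j => (1 - r2) * q j) i = LL K u i := by
  obtain ⟨d, hd⟩ : ∃ d, ∀ i, (u i).totalDegree ≤ d + 1 + 1 :=
    ⟨univ.sup fun i => (u i).totalDegree, fun i =>
      (le_sup (f := fun i => (u i).totalDegree) (mem_univ i)).trans (by omega)⟩
  have w : (1 - r2 : R n).totalDegree ≤ 2 := (totalDegree_sub _ _).trans (max_le (by simp)
    (totalDegree_finsetSum_le fun i _ => (totalDegree_mul _ _).trans (by simp)))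
  let P := Submodule.pi Set.univ fun _ : Fin n => restrictTotalDegree (Fin n) ℝ d
  have : Module.Finite ℝ P := Module.Finite.iff_fg.2 (Submodule.fg_pi fun _ =>
    Module.Finite.iff_fg.1 inferInstance)
  have hP : ∀ q ∈ P, TL K q ∈ P := fun q hq i _ => (mem_restrictTotalDegree _ _ _).2
    (degL (fun j => (totalDegree_mul _ _).trans (by
      have := (mem_restrictTotalDegree _ _ _).1 (hq j trivial); omega)) i)
  have inj : Function.Injective ((TL K).restrict hP) := (injective_iff_map_eq_zero _).2 fun q hq =>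
    Subtype.ext (funext (injL hI hK (congrFun (congrArg Subtype.val hq))))
  obtain ⟨q, hq⟩ := LinearMap.injective_iff_surjective.1 inj
    ⟨LL K u, fun i _ => (mem_restrictTotalDegree _ _ _).2 (degL hd i)⟩
  exact ⟨q, congrFun (congrArg Subtype.val hq)⟩

omit hI in
lemma dec (hn : 3 ≤ n) (hK : 4 ≤ K) {u : Fin n → R n} (hu : ∀ i, LL K u i = 0) :
    ∃ (N : ℕ) (h g : ℕ → R n) (v : Fin n → R n), (∀ m : ℕ, Hm m (h m) ∧ Hm m (g m)) ∧
      (∀ i, lap (v i) = 0) ∧ dv v = 0 ∧ dot X v = 0 ∧ u = ∑ m ∈ range N, UU K m (h m) (g m) + v := by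
  have cz : ∀ {c : ℝ} {p : R n}, c ≠ 0 → C c * p = 0 → p = 0 := fun a b =>
    (mul_eq_zero.1 b).resolve_left (by simpa)
  have h0 : lap (dv u) = 0 := cz (c := K - 2 + K) (by linarith) (by
    have := sum_eq_zero (s := univ) fun i _ => (congrArg (pderiv i) (hu i)).trans (map_zero _)
    simp only [LL_eq, map_add, pderiv_C_mul, sum_add_distrib, ← mul_sum, ← lap_d, ← lap_sum] at this
    rw [map_add, add_mul]
    exact this)
  have z : ∀ m : ℝ, Hm m (0 : R n) := fun m => ⟨by simp [lap], by simp⟩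
  set h : ℕ → R n := fun m => C (de n K m)⁻¹ * homogeneousComponent m (dv u) with hh
  have h1 : ∀ m : ℕ, Hm m (h m) := fun m => (comp_Hm h0 m).c _
  set w := u - ∑ m ∈ range ((dv u).totalDegree + 1), UU K m (h m) 0 with hw
  have w1 : dv w = 0 := by
    have : dv w = dv u - ∑ m ∈ range ((dv u).totalDegree + 1), dv (UU K m (h m) 0) := by
      simp only [hw, dv, Pi.sub_apply, Finset.sum_apply, map_sub, map_sum, sum_sub_distrib]
      rw [sum_comm]
    rw [this, sub_eq_zero, ← sum_homogeneousComponent (dv u), sum_homogeneousComponent]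
    refine (sum_homogeneousComponent _).symm.trans (sum_congr rfl fun m _ => ?_)
    rw [dv_U (h1 m) (z m), ← mul_assoc, ← map_mul, mul_inv_cancel₀ (de_ne hn hK m.cast_nonneg), C_1,
      one_mul]
  have w2 : ∀ i, lap (w i) = 0 := fun i => cz (c := K - 2) (by linarith) (by
    have := LL_eq K w i
    rw [w1, map_zero, mul_zero, add_zero] at this
    rw [← this, hw, LL_sub, LL_sum, hu]
    simp [LL_U (h1 _) (z _)])
  have g0 : lap (dot X w) = 0 := by rw [lap_dot, w1]; simp [dot, w2]
  set g : ℕ → R n := fun m => C (m : ℝ)⁻¹ * homogeneousComponent m (dot X w) with hg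
  have g1 : ∀ m : ℕ, Hm m (g m) := fun m => (comp_Hm g0 m).c _
  set N := (dv u).totalDegree + 1 + (dot X w).totalDegree
  refine ⟨N, h, g, w - ∑ m ∈ range N, gr (g m), fun m => ⟨h1 m, g1 m⟩, fun i => ?_, ?_, ?_, ?_⟩
  · simp [lap_sub, lap_sum, w2, gr, ((g1 _).d i).l]
  · simp only [dv, Pi.sub_apply, Finset.sum_apply, map_sub, map_sum, sum_sub_distrib, sum_comm (t := range N)]
    exact sub_eq_zero.2 (w1.trans (sum_eq_zero fun m _ => (g1 m).l).symm)
  · simp only [dot, Pi.sub_apply, Finset.sum_apply, mul_sub, mul_sum, sum_sub_distrib, sum_comm (t := range N)]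
    refine sub_eq_zero.2 ((comp_sum (dot X w) (by omega)).symm.trans (sum_congr rfl fun m _ => ?_))
    refine Eq.trans ?_ ((dXd _).trans (g1 m).e).symm
    rcases eq_or_ne m 0 with rfl | m0
    · simp [dot, coeff_sum, ← constantCoeff_eq]
    · rw [← mul_assoc, ← map_mul, mul_inv_cancel₀ (by positivity), C_1, one_mul]
  · have : ∑ m ∈ range ((dv u).totalDegree + 1), UU K m (h m) 0 = ∑ m ∈ range N, UU K m (h m) 0 :=
      sum_subset (by simp [N]) fun m _ hm => funext fun i => by
        simp [UU, fld, hh, homogeneousComponent_eq_zero m (dv u) (by simp at hm; omega)]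
    rw [hw, this]
    funext i
    simp [UU, fld, gr, sum_add_distrib]
    ring

theorem key (hn : 3 ≤ n) (hK : 4 ≤ K)
    (hk : ∀ m : ℕ, 2 * (m + 1) * (n + 2 * m - 2) ≤ K * (m ^ 2 + m + n - 2)) (u : Fin n → R n)
    (hu : ∀ i j, I (pderiv j (u i) - pderiv i (u j)) = 0) : 0 ≤ BB I K u u := by
  have n3 : (3 : ℝ) ≤ n := by exact_mod_cast hn
  obtain ⟨q, hq⟩ := exL hI hK u
  set u0 : Fin n → R n := fun j => (1 - r2) * q j with h0
  obtain ⟨N, h, g, v, a, v1, v2, v3, e⟩ := dec hn hK (u := u - u0) fun i => by rw [LL_sub, hq, sub_self]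
  have L1 : ∀ i, LL K (u - u0) i = 0 := fun i => by rw [LL_sub, hq, sub_self]
  have S0 : ∀ w, S I (dot u0 w) = 0 := fun w => by simp only [dot, h0, mul_assoc, ← mul_sum, Sw hI]
  have b1 : BB I K (u - u0) u0 = 0 := by rw [green hI, S0]; simp [dot, L1]
  have b2 : 0 ≤ BB I K u0 u0 := by
    rw [B0 hI]
    exact add_nonneg (mul_nonneg (by linarith) (sum_nonneg fun _ _ => sum_nonneg fun _ _ => hI.pos _))
      (mul_nonneg (by linarith) (hI.pos _))
  have c : ∀ (m : ℕ) {w : Fin n → R n}, dv w = 0 → dot X w = 0 → S I (dot (UU K m (h m) (g m)) w) = 0 :=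
    fun m w => Sfv hI (a m).2 ((a m).1.c _)
  have v4 : ∀ i j, I (pderiv j (v i) - pderiv i (v j)) = 0 := fun i j => by
    have := dot_sum (range N) (fun m => UU K m (h m) (g m)) v (rot i j)
    rw [← e] at this
    have := congrArg (S I) this
    rw [map_add, map_sum, sum_eq_zero fun m _ => c m (dv_rot i j) (by rw [dot_rot]; ring), zero_add,
      Srot hI i j v] at this
    rw [← this, show dot (u - u0) (rot i j) = dot u (rot i j) - dot u0 (rot i j) by
      simp [dot, sub_mul], map_sub, S0, Srot hI, hu, sub_zero]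
  have tv : tau K v = fun i => C (K - 2) * Eu (v i) + C (-K) * v i := funext fun i => by
    rw [tau_eq, v3]; simp
  have b3 : 0 ≤ BB I K (u - u0) (u - u0) := by
    rw [green hI, show dot (u - u0) (LL K (u - u0)) = 0 by simp [dot, L1], map_zero, sub_zero, e,
      tau_sum, dot_sum, map_add, map_sum, dot_comm v, dot_sum, map_add, map_sum, dot_comm _ v]
    refine add_nonneg (sum_nonneg fun m hm => ?_) (add_nonneg (sum_nonneg fun m _ => ?_)
      (Sv hI hK v1 v3 v4))
    · rw [dot_comm, dot_sum, map_add, map_sum, dot_comm (tau K v), c m, add_zero,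
        sum_eq_single_of_mem m hm, dot_comm]
      · obtain ⟨d1, d2⟩ := diag hI (K := K) (a m).1 (a m).2 _ _ rfl rfl
        have p := S_pos hI (a m).1 m.cast_nonneg
        rcases Nat.eq_zero_or_pos m with m0 | m0
        · rw [d2 (by simp [m0])]
          have : 0 ≤ K - 1 := by linarith
          positivity
        have m1 : (1 : ℝ) ≤ m := by exact_mod_cast m0
        refine nonneg_of_mul_nonneg_right (a := (m : ℝ) * (n + 2 * m - 2)) ?_ (by nlinarith)
        rw [d1]
        refine add_nonneg (mul_nonneg (mul_nonneg (mul_nonneg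
          (by linarith) (by linarith [hk m])) (mul_nonneg ?_ (by nlinarith))) p) (mul_nonneg
          (by nlinarith) (S_pos hI (((a m).2.c _).add ((a m).1.c _)) m.cast_nonneg))
        rw [al, neg_neg]
        nlinarith
      · intro k _ hk
        have hk' : (k : ℝ) ≠ m := by exact_mod_cast hk
        rw [tau_U (a k).1 (a k).2, UU, Sff hI ((a k).2.c _) ((a k).1.c _) (a m).2 ((a m).1.c _),
          So hI ((a k).1.c _) ((a m).1.c _) hk', So hI ((a k).1.c _) ((a m).2.add ((a m).1.c _)) hk',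
          So hI ((a m).1.c _) (((a k).2.c _).add ((a k).1.c _)) hk'.symm,
          So hI ((a m).2.add ((a m).1.c _)) (((a k).2.c _).add ((a k).1.c _)) hk'.symm]
        simp
      · have := dv_Eu v
        simp only [tv, dv, map_add, pderiv_C_mul, sum_add_distrib, ← mul_sum] at this v2 ⊢
        simp [this, v2]
      · have := dot_Eu v
        simp only [tv, dot, mul_add, mul_left_comm _ (C _), sum_add_distrib, ← mul_sum] at this v3 ⊢
        simp [this, v3]
    · rw [tau_U (a m).1 (a m).2, Sfv hI ((a m).2.c _) ((a m).1.c _) v2 v3]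
  rw [← sub_add_cancel u u0, BB_add, BB_symm _ _ _ (u - u0), BB_symm _ _ _ u0, BB_add, BB_add,
    BB_symm _ _ u0, b1]
  linarith

theorem sharp (hn : 3 ≤ n) (hK : 4 ≤ K) {m : ℕ} (m1 : 1 ≤ m) (mn : m ≤ n)
    (hk : 2 * (m + 1) * (n + 2 * m - 2) = K * (m ^ 2 + m + n - 2)) : ∃ u : Fin n → R n,
    (∀ i j, I (pderiv j (u i) - pderiv i (u j)) = 0) ∧ BB I K u u = 0 ∧ dv u ≠ 0 := by
  have n3 : (3 : ℝ) ≤ n := by exact_mod_cast hn
  have m1' : (1 : ℝ) ≤ m := by exact_mod_cast m1
  obtain ⟨s, -, hs⟩ := exists_subset_card_eq (s := (univ : Finset (Fin n))) (by simpa using mn)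
  have hh : ∀ s : Finset (Fin n), (∀ i ∉ s, pderiv i (∏ j ∈ s, X j : R n) = 0) ∧
      (∀ i, pderiv i (pderiv i (∏ j ∈ s, X j : R n)) = 0) ∧
      Eu (∏ j ∈ s, X j : R n) = C (s.card : ℝ) * ∏ j ∈ s, X j := fun s => by
    induction s using Finset.induction_on with
    | empty => simp
    | insert a s ha ih =>
      simp only [prod_insert ha, pderiv_mul, dX, map_add, ih.2.1, Eu_mul, Eu_X, ih.2.2,
        card_insert_of_notMem ha, Nat.cast_succ, map_one, mem_insert, not_or]
      refine ⟨fun i hi => by simp [ih.1 i hi.2, Ne.symm hi.1], fun i => ?_, by ring⟩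
      split_ifs with c
      · simp [← c, ih.1 a ha]
      · simp
  have h : Hm m (∏ j ∈ s, X j : R n) := ⟨by simp [lap, (hh s).2.1], hs ▸ (hh s).2.2⟩
  have l0 : (0 : ℝ) < m * (n + 2 * m - 2) := by nlinarith
  have g := h.c (-(m * al n K m + m * (n + 2 * m - 2) * be n K m) / (m * (n + 2 * m - 2)))
  refine ⟨UU K m _ _, fun i j => ?_, ?_, dv_U h g ▸ mul_ne_zero
    (by simpa using de_ne hn hK m.cast_nonneg) (prod_ne_zero_iff.2 fun _ _ => X_ne_zero _)⟩
  · rw [← Srot hI, UU, Sfv hI g (h.c _) (dv_rot i j) (by rw [dot_rot]; ring)]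
  · have := (diag hI (K := K) h g _ _ rfl rfl).1
    rw [← hk, ← mul_assoc (C _), ← map_mul, mul_div_cancel₀ _ l0.ne', ← add_mul, ← map_add] at this
    simp only [sub_self, mul_zero, zero_mul, neg_add_cancel, map_zero, add_zero, mul_eq_zero,
      l0.ne', false_or] at this
    rw [green hI, this]
    simp only [dot, LL_U h g, mul_zero, sum_const_zero, map_zero, sub_zero]

end

end Pool.Agent.H.MP_67a05c_an
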