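import Pool.Agent.H.MP_67a05c_an.C

set_option autoImplicit false
set_option maxHeartbeats 400000
set_option linter.unusedSectionVars false
set_option linter.unusedSimpArgs false

namespace Pool.Agent.H.MP_67a05c_an

open MvPolynomial Finset MeasureTheory Metric Filter Topology
open scoped ContDiff

abbrev V (n : ℕ) := EuclideanSpace ℝ (Fin n)

variable {n : ℕ}

noncomputable section

def ev (p : R n) (x : V n) : ℝ := eval (fun i => x i) p

lemma ev_add (p q : R n) (x : V n) : ev (p + q) x = ev p x + ev q x := map_add _ _ _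
lemma ev_sub (p q : R n) (x : V n) : ev (p - q) x = ev p x - ev q x := map_sub _ _ _
lemma ev_mul (p q : R n) (x : V n) : ev (p * q) x = ev p x * ev q x := map_mul _ _ _
lemma ev_C (c : ℝ) (x : V n) : ev (C c) x = c := eval_C _
lemma ev_X (i : Fin n) (x : V n) : ev (X i) x = x i := eval_X _
lemma ev_r2 (x : V n) : ev r2 x = ‖x‖ ^ 2 := by
  rw [EuclideanSpace.real_norm_sq_eq]; simp [ev, r2, sq]
lemma ev_w (x : V n) : ev (1 - r2) x = 1 - ‖x‖ ^ 2 := by rw [ev_sub, ev_r2]; simp [ev]

lemma ev_an (p : R n) : AnalyticOnNhd ℝ (ev p) Set.univ :=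
  AnalyticOnNhd.eval_continuousLinearMap' (fun i => (EuclideanSpace.proj i : V n →L[ℝ] ℝ)) p

lemma ev_sm (p : R n) : ContDiff ℝ ∞ (ev p) := (ev_an p).contDiff

lemma ev_df (p : R n) (x : V n) : DifferentiableAt ℝ (ev p) x := (ev_sm p).differentiable (by simp) x

lemma ev_d (p : R n) (x : V n) (j : Fin n) :
    fderiv ℝ (ev p) x (EuclideanSpace.single j 1) = ev (pderiv j p) x := by
  induction p using MvPolynomial.induction_on with
  | C a => rw [funext (ev_C a)]; simp [ev]
  | add p q a b =>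
    rw [funext (ev_add p q), fderiv_fun_add (ev_df p x) (ev_df q x), map_add, ev_add, ← a, ← b]
    rfl
  | mul_X p i a =>
    have : fderiv ℝ (ev (X i)) x = EuclideanSpace.proj i := by
      rw [funext (ev_X i)]; exact (EuclideanSpace.proj i : V n →L[ℝ] ℝ).fderiv
    rw [funext (ev_mul p (X i)), fderiv_fun_mul (ev_df p x) (ev_df _ x), pderiv_mul, ev_add, ev_mul,
      ev_mul, ← a, this, dX]
    by_cases h : i = j <;> simp [h, ev, mul_comm, add_comm]

lemma cint {f : V n → ℝ} (h : ContinuousOn f (closedBall 0 1)) : IntegrableOn f (ball 0 1) :=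
  (h.integrableOn_compact (isCompact_closedBall _ _)).mono_set ball_subset_closedBall

lemma ev_int (p : R n) : IntegrableOn (ev p) (ball 0 1) := cint (ev_sm p).continuous.continuousOn

def II (n : ℕ) : R n →ₗ[ℝ] ℝ where
  toFun p := ∫ x in ball 0 1, ev p x
  map_add' p q := by simp only [ev_add]; exact integral_add (ev_int p) (ev_int q)
  map_smul' c p := by simp only [smul_eq_C_mul, ev_mul, ev_C, integral_const_mul]; rfl

lemma II_eq (p : R n) : II n p = ∫ x in ball 0 1, ev p x := rfl

lemma hII : Fn (II n) := by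
  refine ⟨fun i q => ?_, fun p => integral_nonneg fun x => by simp [ev_mul, mul_self_nonneg],
    fun p hp => ?_⟩
  · let β : ContDiffBump (0 : V n) := ⟨2, 3, two_pos, by norm_num⟩
    have hβ : ∀ p : R n, ∃ c, LipschitzWith c fun x => β x * ev p x := fun p =>
      (β.contDiff.mul (ev_sm p)).lipschitzWith_of_hasCompactSupport β.hasCompactSupport.mul_right
        (by simp)
    obtain ⟨c1, h1⟩ := hβ q
    obtain ⟨c2, h2⟩ := hβ (1 - r2)
    have z : ∀ x : V n, 1 ≤ ‖x‖ → max (β x * ev (1 - r2) x) 0 = 0 := fun x hx => max_eq_right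
      (mul_nonpos_of_nonneg_of_nonpos β.nonneg (by rw [ev_w]; nlinarith))
    have o : ∀ x ∈ ball (0 : V n) 1, β x = 1 := fun x hx =>
      β.one_of_mem_closedBall (closedBall_subset_closedBall one_le_two (ball_subset_closedBall hx))
    have o2 : ∀ x ∈ ball (0 : V n) 1, max (β x * ev (1 - r2) x) 0 = ev (1 - r2) x := fun x hx => by
      rw [o x hx, one_mul, ev_w, max_eq_left]
      nlinarith [mem_ball_zero_iff.1 hx, norm_nonneg x]
    have := LipschitzWith.integral_lineDeriv_mul_eq (μ := volume) h1 (h2.max_const 0)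
      (HasCompactSupport.intro (isCompact_closedBall 0 1) fun x hx => z x (by simp at hx; linarith))
      (EuclideanSpace.single i 1)
    have e1 : ∫ x, lineDeriv ℝ (fun x => β x * ev q x) x (EuclideanSpace.single i 1) *
        max (β x * ev (1 - r2) x) 0 = II n (pderiv i q * (1 - r2)) := by
      rw [← setIntegral_eq_integral_of_forall_compl_eq_zero (s := ball 0 1) fun x hx => by
        rw [z x (by simpa using hx), mul_zero]]
      refine setIntegral_congr_fun measurableSet_ball fun x hx => ?_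
      beta_reduce
      rw [EventuallyEq.lineDeriv_eq (f := ev q) (eventually_of_mem (isOpen_ball.mem_nhds hx)
        fun y hy => by simp [o y hy]), (ev_df _ x).lineDeriv_eq_fderiv, ev_d, o2 x hx, ev_mul]
    have e2 : ∫ x, lineDeriv ℝ (fun x => max (β x * ev (1 - r2) x) 0) x (-EuclideanSpace.single i 1) *
        (β x * ev q x) = II n (C (-1) * (pderiv i (1 - r2) * q)) := by
      rw [← setIntegral_eq_integral_of_ae_compl_eq_zero (s := ball 0 1)]
      · refine setIntegral_congr_fun measurableSet_ball fun x hx => ?_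
        beta_reduce
        rw [EventuallyEq.lineDeriv_eq (f := ev (1 - r2)) (eventually_of_mem (isOpen_ball.mem_nhds hx) o2),
          (ev_df _ x).lineDeriv_eq_fderiv, map_neg, ev_d, o x hx, ev_mul, ev_mul, ev_C]
        ring
      · filter_upwards [compl_mem_ae_iff.2 (Measure.addHaar_sphere_of_ne_zero volume (0 : V n) one_ne_zero)] with x a b
        have : 1 < ‖x‖ := lt_of_le_of_ne (by simpa using b) (by simpa [eq_comm] using a)
        rw [EventuallyEq.lineDeriv_eq (f := fun _ => 0) ((continuous_norm.continuousAt.eventually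
          (lt_mem_nhds this)).mono fun y hy => z y hy.le)]
        simp [lineDeriv]
    rw [e1, e2, lC] at this
    rw [pderiv_mul, map_add, mul_comm _ (pderiv i q), this]; ring
  · have a := (setIntegral_eq_zero_iff_of_nonneg_ae (.of_forall fun x => by
      simp [ev_mul, mul_self_nonneg]) (ev_int (p * p))).1 hp
    have b := Measure.eqOn_open_of_ae_eq a isOpen_ball (ev_sm _).continuous.continuousOn
      continuousOn_const
    have c := (ev_an (p * p)).eqOn_zero_of_preconnected_of_eventuallyEq_zero isPreconnected_univ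
      (Set.mem_univ 0) (eventually_of_mem (ball_mem_nhds 0 one_pos) b)
    refine mul_self_eq_zero.1 (MvPolynomial.funext fun x => ?_)
    simpa [ev] using c (Set.mem_univ (WithLp.toLp 2 x))

lemma poly (p : R n) {u : V n → ℝ} (hu : Continuous u) (hc : HasCompactSupport u) :
    ∃ P : R n, ∀ x, ∫ y, ev p (x - y) * u y = ev P x := by
  have i : ∀ (p : R n) {u : V n → ℝ}, Continuous u → HasCompactSupport u → ∀ x,
      Integrable fun y => ev p (x - y) * u y := fun p u a b x =>
    (((ev_sm p).continuous.comp (by fun_prop)).mul a).integrable_of_hasCompactSupport b.mul_left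
  induction p using MvPolynomial.induction_on generalizing u with
  | C a => exact ⟨C (a * ∫ y, u y), fun x => by simp only [ev_C, integral_const_mul]⟩
  | add p q a b =>
    obtain ⟨P, a⟩ := a hu hc
    obtain ⟨Q, b⟩ := b hu hc
    exact ⟨P + Q, fun x => by
      simp only [ev_add, add_mul, integral_add (i p hu hc x) (i q hu hc x), a, b]⟩
  | mul_X p j a =>
    have h1 : Continuous fun y : V n => y j * u y := by fun_prop
    obtain ⟨P, b⟩ := a hu hc
    obtain ⟨Q, c⟩ := a h1 hc.mul_left
    refine ⟨X j * P - Q, fun x => ?_⟩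
    rw [ev_sub, ev_mul, ← b, ← c, ← integral_const_mul,
      ← integral_sub ((i p hu hc x).const_mul _) (i p h1 hc.mul_left x)]
    simp only [ev_mul, ev_X, PiLp.sub_apply]
    congr 1; funext y; ring

structure BC (f : ℕ → V n → ℝ) (g : V n → ℝ) : Prop where
  c : ∀ N, ContinuousOn (f N) (ball 0 1)
  b : ∃ M, ∀ N, ∀ x ∈ ball 0 1, |f N x| ≤ M
  t : ∀ x ∈ ball 0 1, Tendsto (fun N => f N x) atTop (𝓝 (g x))

lemma approx {u : V n → ℝ} (hu : ContDiff ℝ 1 u) (hs : tsupport u ⊆ closedBall 0 2) :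
    ∃ P : ℕ → R n, ∀ j, BC (fun N => ev (pderiv j (P N)))
      fun x => fderiv ℝ u x (EuclideanSpace.single j 1) := by
  have hc : HasCompactSupport u := (isCompact_closedBall 0 2).of_isClosed_subset isClosed_closure hs
  choose P hP using fun N : ℕ => poly ((1 - C (1 / 9) * r2) ^ N) hu.continuous hc
  have k : ∀ (N : ℕ) (x : V n), ev ((1 - C (1 / 9) * r2) ^ N) x = (1 - 1 / 9 * ‖x‖ ^ 2) ^ N :=
    fun N x => by rw [← ev_r2]; simp [ev]
  refine ⟨fun N => C (∫ t in closedBall (0 : V n) 3, (1 - 1 / 9 * ‖t‖ ^ 2) ^ N)⁻¹ * P N, fun j => ?_⟩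
  have cu : Continuous fun x => fderiv ℝ u x (EuclideanSpace.single j 1) :=
    (hu.continuous_fderiv one_ne_zero).clm_apply continuous_const
  have e : ∀ N, ∀ x ∈ ball (0 : V n) 1, ev (pderiv j (P N)) x = ∫ t in closedBall (0 : V n) 3,
      (1 - 1 / 9 * ‖t‖ ^ 2) ^ N • fderiv ℝ u (x - t) (EuclideanSpace.single j 1) := fun N x hx => by
    have l := (ev_sm ((1 - C (1 / 9) * r2 : R n) ^ N)).continuous.locallyIntegrable (μ := volume)
    have := (hc.hasFDerivAt_convolution_right (ContinuousLinearMap.mul ℝ ℝ) l hu x).fderiv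
    rw [show convolution _ u _ volume = ev (P N) from funext fun x => by
      rw [convolution_eq_swap, ← hP]; rfl] at this
    rw [← ev_d, this, convolution_precompR_apply _ l (hc.fderiv ℝ) (hu.continuous_fderiv one_ne_zero),
      setIntegral_eq_integral_of_forall_compl_eq_zero fun t ht => ?_]
    · simp only [convolution_def, k]; rfl
    · rw [fderiv_of_notMem_tsupport ℝ fun h => ?_]
      · simp
      have := norm_sub_le x (x - t)
      have := mem_closedBall_zero_iff.1 (hs h)
      simp at *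
      linarith
  have p0 : ∀ t ∈ closedBall (0 : V n) 3, 0 ≤ 1 - 1 / 9 * ‖t‖ ^ 2 := fun t ht => by
    nlinarith [mem_closedBall_zero_iff.1 ht, norm_nonneg t]
  refine ⟨fun N => (ev_sm _).continuous.continuousOn, ?_, fun x hx => ?_⟩
  · obtain ⟨M, hM⟩ := (hc.fderiv_apply ℝ (EuclideanSpace.single j 1)).exists_bound_of_continuous cu
    refine ⟨M, fun N x hx => ?_⟩
    have i0 : 0 ≤ ∫ t in closedBall (0 : V n) 3, (1 - 1 / 9 * ‖t‖ ^ 2) ^ N :=
      setIntegral_nonneg measurableSet_closedBall fun t ht => pow_nonneg (p0 t ht) _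
    rw [pderiv_C_mul, ev_mul, ev_C, e N x hx, abs_mul, abs_of_nonneg (inv_nonneg.2 i0)]
    rw [← Real.norm_eq_abs]
    refine (mul_le_mul_of_nonneg_left (norm_integral_le_of_norm_le
      (g := fun t : V n => (1 - 1 / 9 * ‖t‖ ^ 2) ^ N * M) (ContinuousOn.integrableOn_compact
      (μ := volume) (isCompact_closedBall 0 3) (by fun_prop)) ?_) (inv_nonneg.2 i0)).trans ?_
    · filter_upwards [ae_restrict_mem measurableSet_closedBall] with t ht
      rw [norm_smul, Real.norm_of_nonneg (pow_nonneg (p0 t ht) _)]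
      exact mul_le_mul_of_nonneg_left (hM _) (pow_nonneg (p0 t ht) _)
    · rw [integral_mul_const, ← mul_assoc]
      exact mul_le_of_le_one_left ((norm_nonneg _).trans (hM 0)) inv_mul_le_one
  · simp only [pderiv_C_mul, ev_mul, ev_C, e _ x hx]
    simpa using tendsto_setIntegral_pow_smul_of_unique_maximum_of_isCompact_of_continuousOn
      (μ := volume) (x₀ := 0) (g := fun t => fderiv ℝ u (x - t) (EuclideanSpace.single j 1))
      (isCompact_closedBall (0 : V n) 3) (c := fun t => 1 - 1 / 9 * ‖t‖ ^ 2) (by fun_prop)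
      (fun y _ hy => by simpa [pow_pos_iff] using pow_pos (norm_pos_iff.2 hy) 2) p0 (by simp)
      (subset_closure (mem_interior_iff_mem_nhds.2 (closedBall_mem_nhds _ three_pos)))
      (cu.comp (by fun_prop)).continuousOn

section
variable {f f' : ℕ → V n → ℝ} {g g' : V n → ℝ}

lemma BC.add (h : BC f g) (h' : BC f' g') : BC (fun N x => f N x + f' N x) fun x => g x + g' x := by
  obtain ⟨M, a⟩ := h.b
  obtain ⟨M', b⟩ := h'.b
  exact ⟨fun N => (h.c N).add (h'.c N), ⟨_, fun N x hx => (abs_add_le _ _).trans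
    (add_le_add (a N x hx) (b N x hx))⟩, fun x hx => (h.t x hx).add (h'.t x hx)⟩

lemma BC.mul (h : BC f g) (h' : BC f' g') : BC (fun N x => f N x * f' N x) fun x => g x * g' x := by
  obtain ⟨M, a⟩ := h.b
  obtain ⟨M', b⟩ := h'.b
  exact ⟨fun N => (h.c N).mul (h'.c N), ⟨_, fun N x hx => (abs_mul _ _).trans_le (mul_le_mul (a N x hx)
    (b N x hx) (abs_nonneg _) ((abs_nonneg _).trans (a N x hx)))⟩,
    fun x hx => (h.t x hx).mul (h'.t x hx)⟩

lemma BC.const {a : ℕ → ℝ} {b : ℝ} (h : Tendsto a atTop (𝓝 b)) :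
    BC (fun N (_ : V n) => a N) fun _ => b := by
  obtain ⟨M, hM⟩ := h.abs.bddAbove_range
  exact ⟨fun _ => continuousOn_const, ⟨M, fun N _ _ => hM ⟨N, rfl⟩⟩, fun _ _ => h⟩

lemma BC.int (h : BC f g) :
    Tendsto (fun N => ∫ x in ball 0 1, f N x) atTop (𝓝 (∫ x in ball 0 1, g x)) := by
  obtain ⟨M, a⟩ := h.b
  exact tendsto_integral_of_dominated_convergence (fun _ => M)
    (fun N => (h.c N).aestronglyMeasurable measurableSet_ball) (cint continuousOn_const)
    (fun N => (ae_restrict_mem measurableSet_ball).mono (a N))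
    ((ae_restrict_mem measurableSet_ball).mono h.t)

end

def AV (G : Fin n → Fin n → V n → ℝ) (i j : Fin n) : ℝ :=
  -(2 * II n 1)⁻¹ * ∫ x in ball 0 1, (G i j x + -1 * G j i x)

def Ψ (K : ℝ) (G : Fin n → Fin n → V n → ℝ) : ℝ := ∑ i, ∑ j, ∫ x in ball 0 1,
  (G i j x + AV G i j) * ((K - 2) * (G i j x + AV G i j) + K * (G j i x + AV G j i))

lemma lim (K : ℝ) {F : ℕ → Fin n → Fin n → V n → ℝ} {G : Fin n → Fin n → V n → ℝ}
    (h : ∀ i j, BC (fun N => F N i j) (G i j)) (h0 : ∀ N, 0 ≤ Ψ K (F N)) : 0 ≤ Ψ K G := by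
  have c : ∀ a : ℝ, BC (fun _ (_ : V n) => a) fun _ => a := fun a => .const tendsto_const_nhds
  have a := fun i j => (h i j).add (.const (((h i j).add ((c (-1)).mul (h j i))).int.const_mul
    (-(2 * II n 1)⁻¹)))
  exact ge_of_tendsto' (tendsto_finsetSum _ fun i _ => tendsto_finsetSum _ fun j _ =>
    ((a i j).mul (((c (K - 2)).mul (a i j)).add ((c K).mul (a j i)))).int) h0

lemma Ψ_BB (K : ℝ) (u : Fin n → R n) : BB (II n) K u u = ∑ i, ∑ j, ∫ x in ball 0 1,
    ev (pderiv j (u i)) x * ((K - 2) * ev (pderiv j (u i)) x + K * ev (pderiv i (u j)) x) := by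
  simp only [BB, dot, map_sum, II_eq, gr, sig, ev_mul, ev_add, ev_C]

variable {K : ℝ} (hn : 3 ≤ n) (hK : 4 ≤ K)
  (hk : ∀ m : ℕ, 2 * (m + 1) * (n + 2 * m - 2) ≤ K * (m ^ 2 + m + n - 2))
include hn hK hk

lemma Ψ_poly (u : Fin n → R n) : 0 ≤ Ψ K fun i j => ev (pderiv j (u i)) := by
  set A := AV fun i j => ev (pderiv j (u i)) with hA
  have d : ∀ i j, pderiv j (u i + ∑ k, C (A i k) * X k) = pderiv j (u i) + C (A i j) := fun i j => by
    simp [pderiv_C_mul, dX, -Derivation.leibniz, -pderiv_X]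
  have := key hII hn hK hk (fun i => u i + ∑ k, C (A i k) * X k) fun i j => by
    have i1 : II n 1 ≠ 0 := fun h => one_ne_zero (hII.pd 1 (by rwa [mul_one]))
    have e : ∀ i j, A i j = -(2 * II n 1)⁻¹ * II n (pderiv j (u i) - pderiv i (u j)) := fun i j => by
      simp only [hA, AV, II_eq (_ - _), ev_sub, neg_mul, one_mul, ← sub_eq_add_neg]
    rw [d, d, ← mul_one (C _), ← mul_one (C (A j i))]
    simp only [map_add, map_sub, lC, e]
    field_simp
    ring
  simpa only [Ψ_BB, d, ev_add, ev_C, Ψ] using this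

lemma Ψ_main {u : Fin n → V n → ℝ} (hu : ∀ i, ContDiffOn ℝ ∞ (u i) (closedBall 0 1)) :
    0 ≤ Ψ K fun i j x => fderiv ℝ (u i) x (EuclideanSpace.single j 1) := by
  have hd : ∀ i, ∀ x ∈ ball (0 : V n) 1, ContDiffAt ℝ 1 (u i) x := fun i x hx =>
    ((hu i).contDiffAt (mem_of_superset (isOpen_ball.mem_nhds hx) ball_subset_closedBall)).of_le
      (by simp)
  have mb : ∀ {ρ : ℝ}, 0 ≤ ρ → ρ ≤ 1 → ∀ x ∈ ball (0 : V n) 1, ρ • x ∈ ball (0 : V n) 1 :=
    fun a b x hx => (convex_ball 0 1).smul_mem_of_zero_mem (mem_ball_self one_pos) hx ⟨a, b⟩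
  have h1 : ∀ ρ : ℝ, 0 ≤ ρ → ρ < 1 →
      0 ≤ Ψ K fun i j x => ρ * fderiv ℝ (u i) (ρ • x) (EuclideanSpace.single j 1) := fun ρ a b => by
    let β : ContDiffBump (0 : V n) := ⟨1, 2 - ρ, one_pos, by linarith⟩
    have t : ∀ i, tsupport (fun x => β x * u i (ρ • x)) ⊆ closedBall 0 (2 - ρ) := fun i =>
      (tsupport_mul_subset_left).trans β.tsupport_eq.le
    choose P hP using fun i => approx (u := fun x => β x * u i (ρ • x))
      (contDiff_iff_contDiffAt.2 fun x => by
        by_cases h : x ∈ tsupport fun x => β x * u i (ρ • x)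
        · refine β.contDiff.contDiffAt.mul ((hd i (ρ • x) ?_).comp x (by fun_prop))
          have := mem_closedBall_zero_iff.1 (t i h)
          rw [mem_ball_zero_iff, norm_smul, Real.norm_of_nonneg a]
          nlinarith
        · exact contDiffAt_const.congr_of_eventuallyEq (notMem_tsupport_iff_eventuallyEq.1 h))
      ((t i).trans (closedBall_subset_closedBall (by linarith)))
    refine lim K (fun i j => ⟨(hP i j).c, (hP i j).b, fun x hx => ?_⟩)
      fun N => Ψ_poly hn hK hk fun i => P i N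
    convert (hP i j).t x hx using 2
    rw [EventuallyEq.fderiv_eq (f := fun x => u i (ρ • x)) (eventually_of_mem (isOpen_ball.mem_nhds hx)
      fun y hy => by simp [β.one_of_mem_closedBall (ball_subset_closedBall hy)]),
      fderiv_comp_smul]
    rfl
  have cu : ∀ i j, ContinuousOn (fun x => fderiv ℝ (u i) x (EuclideanSpace.single j 1)) (ball 0 1) :=
    fun i j x hx => (((hd i x hx).continuousAt_fderiv one_ne_zero).clm_apply
      continuousAt_const).continuousWithinAt
  have r0 : ∀ N : ℕ, (0 : ℝ) ≤ N / (N + 1) := fun N => by positivity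
  have r1 : ∀ N : ℕ, (N : ℝ) / (N + 1) < 1 := fun N => (div_lt_one (by positivity)).2 (by linarith)
  have rt := tendsto_natCast_div_add_atTop (1 : ℝ)
  refine lim K (fun i j => ?_) fun N => h1 _ (r0 N) (r1 N)
  have := (BC.const rt).mul (f' := fun N x => fderiv ℝ (u i) (((N : ℝ) / (N + 1)) • x)
    (EuclideanSpace.single j 1)) (g' := fun x => fderiv ℝ (u i) x (EuclideanSpace.single j 1))
    ⟨fun N => (cu i j).comp (by fun_prop) (mb (r0 N) (r1 N).le), ?_, fun x hx => ?_⟩
  · simpa only [one_mul] using this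
  · obtain ⟨M, hM⟩ := (isCompact_closedBall (0 : V n) 1).exists_bound_of_continuousOn
      (((hu i).continuousOn_fderivWithin (uniqueDiffOn_convex (convex_closedBall _ _)
      ⟨0, mem_interior_iff_mem_nhds.2 (closedBall_mem_nhds _ one_pos)⟩) (by simp)).clm_apply
      (continuousOn_const (c := EuclideanSpace.single j 1)))
    refine ⟨M, fun N x hx => ?_⟩
    have a := mb (r0 N) (r1 N).le x hx
    have := hM _ (ball_subset_closedBall a)
    rwa [fderivWithin_of_mem_nhds (mem_of_superset (isOpen_ball.mem_nhds a) ball_subset_closedBall)]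
      at this
  · exact ((cu i j).continuousAt (isOpen_ball.mem_nhds hx)).tendsto.comp (by
      simpa using rt.smul_const x)

end

end Pool.Agent.H.MP_67a05c_an
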